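import Pool.Agent.helper82.T6.SpecW

set_option autoImplicit false

namespace Pool.Agent.T6

open Finset Pool.Agent.helper3.FT Pool.Agent.T5

/-- WFJ -/
theorem WFJ : WFJ_stmt := by
  intro ι s w x T hT hw
  have hH0 : (0 : ℝ) < T := by exact_mod_cast hT
  set g : ℕ → ℝ := fun j => ‖∑ i ∈ s, (w i : ℂ) * e (j * x i)‖ with hg
  have hg0 : ∀ j, 0 ≤ g j := fun j => norm_nonneg _
  have hS : ∀ j : ℤ, ‖∑ i ∈ s, (w i : ℂ) * e (j * x i)‖ = g j.natAbs := by
    intro j
    rcases Int.natAbs_eq j with h | h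
    · simp only [hg]; rw [h]; simp
    · simp only [hg]
      rw [← Complex.norm_conj, map_sum]
      refine congrArg _ (Finset.sum_congr rfl (fun i _ => ?_))
      rw [map_mul, Complex.conj_ofReal, E3_e_neg_conj]
      refine congrArg _ (congrArg _ ?_)
      rw [h]; push_cast; simp
  have hmain : ∑ i ∈ s, w i * ‖∑ h ∈ Finset.range T, e (h * x i)‖ ^ 2
      ≤ T * (g 0 + 2 * ∑ j ∈ Ico 1 T, g j) := by
    have e1 : ((∑ i ∈ s, w i * ‖∑ h ∈ Finset.range T, e (h * x i)‖ ^ 2 : ℝ) : ℂ)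
        = ∑ a ∈ Finset.range T, ∑ b ∈ Finset.range T, ∑ i ∈ s,
          (w i : ℂ) * e (((a : ℤ) - b : ℤ) * x i) := by
      push_cast
      have e2 : ∀ i ∈ s, (w i : ℂ) * ((‖∑ h ∈ Finset.range T, e (h * x i)‖ : ℂ)) ^ 2
          = ∑ a ∈ Finset.range T, ∑ b ∈ Finset.range T,
            (w i : ℂ) * e (((a : ℤ) - b : ℤ) * x i) := by
        intro i _
        rw [← Complex.mul_conj', map_sum, Finset.sum_mul_sum, Finset.mul_sum]
        refine Finset.sum_congr rfl (fun a _ => ?_)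
        rw [Finset.mul_sum]
        refine Finset.sum_congr rfl (fun b _ => ?_)
        rw [E3_e_neg_conj, ← E3_e_add]
        refine congrArg _ (congrArg _ ?_)
        push_cast; ring
      rw [Finset.sum_congr rfl e2, Finset.sum_comm]
      refine Finset.sum_congr rfl (fun a _ => ?_)
      rw [Finset.sum_comm]
      refine Finset.sum_congr rfl (fun b _ => Finset.sum_congr rfl (fun i _ => ?_))
      push_cast; rfl
    have e3 : ∑ i ∈ s, w i * ‖∑ h ∈ Finset.range T, e (h * x i)‖ ^ 2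
        = ‖((∑ i ∈ s, w i * ‖∑ h ∈ Finset.range T, e (h * x i)‖ ^ 2 : ℝ) : ℂ)‖ := by
      rw [Complex.norm_real, Real.norm_of_nonneg]
      exact Finset.sum_nonneg (fun i hi => mul_nonneg (hw i hi) (by positivity))
    rw [e3, e1]
    refine (norm_sum_le _ _).trans ?_
    have e4 : ∀ a ∈ Finset.range T,
        ‖∑ b ∈ Finset.range T, ∑ i ∈ s, (w i : ℂ) * e (((a : ℤ) - b : ℤ) * x i)‖
          ≤ g 0 + 2 * ∑ j ∈ Ico 1 T, g j := by
      intro a ha
      refine (norm_sum_le _ _).trans ?_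
      rw [Finset.sum_congr rfl (fun b _ => hS _)]
      exact E3_row_le g hg0 T a (Finset.mem_range.1 ha)
    refine (Finset.sum_le_sum e4).trans ?_
    rw [Finset.sum_const, Finset.card_range, nsmul_eq_mul]
  have hlow : (∑ i ∈ s.filter (fun i => nd (x i) * (8 * T) ≤ 1), w i) * ((T : ℝ) ^ 2 / 2)
      ≤ ∑ i ∈ s, w i * ‖∑ h ∈ Finset.range T, e (h * x i)‖ ^ 2 := by
    rw [Finset.sum_mul]
    refine le_trans (Finset.sum_le_sum fun i hi => ?_)
      (Finset.sum_le_sum_of_subset_of_nonneg (Finset.filter_subset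
      (fun i => nd (x i) * (8 * T) ≤ 1) s)
      (fun i hi _ => mul_nonneg (hw i hi) (by positivity)))
    exact mul_le_mul_of_nonneg_left (E3_fejer_low (x i) T hT (Finset.mem_filter.1 hi).2)
      (hw i (Finset.mem_filter.1 hi).1)
  have hg00 : g 0 = ∑ i ∈ s, w i := by
    simp only [hg]
    have h1 : ∀ i ∈ s, (w i : ℂ) * e ((0 : ℕ) * x i) = (w i : ℂ) := by
      intro i _
      have := E3_e_intCast 0
      simp only [Int.cast_zero] at this
      simp [this]
    rw [Finset.sum_congr rfl h1, ← Complex.ofReal_sum, Complex.norm_real, Real.norm_of_nonneg]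
    exact Finset.sum_nonneg hw
  rw [hg00] at hmain
  have h := hlow.trans hmain
  have h2 : ∑ i ∈ s.filter (fun i => nd (x i) * (8 * T) ≤ 1), w i
      ≤ (T * (∑ i ∈ s, w i + 2 * ∑ j ∈ Ico 1 T, g j)) / ((T : ℝ) ^ 2 / 2) := by
    rw [le_div_iff₀ (by positivity)]; exact h
  refine h2.trans (le_of_eq ?_)
  simp only [hg]
  field_simp

end Pool.Agent.T6
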